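import Pool.Agent.Y956.CB.Mean

/-!
# Correlations with dilated shifts at a decoupled scale (helper60, leaf TAO of helper47)
-/

set_option autoImplicit false

namespace Pool.Agent.K9h60.TA

open Finset
open Pool.Agent.TH112.BL (LM Bd)
open Pool.Agent.TH575.CW (QD win)
open Pool.Agent.Y956.CB (QDw_nonneg QDw_le)

/-- the mean over the multiples of `p` -/
lemma mult_mean (m : LM) {p : ℕ} (hp : 1 ≤ p) {φ : ℕ → ℝ} (h : Bd φ) :
    (p : ℝ) * m.m (fun n => if p ∣ n then φ n else 0) = m.m (fun n => φ (p * n)) := by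
  rw [m.dil p φ hp h, ← m.smul _ _ (h.ite _)]
  congr 1
  funext n
  split_ifs <;> simp

lemma one_bd : Bd (fun _ => (1 : ℝ)) := Pool.Agent.TH112.BL.Bd.const 1

lemma ind_mean (m : LM) {p : ℕ} (hp : 1 ≤ p) (b : ℕ) :
    m.m (fun n => if p ∣ n + b then (1 : ℝ) else 0) = 1 / p := by
  have h1 := m.shiftk b (φ := fun n => if p ∣ n then (1 : ℝ) else 0) (one_bd.ite _)
  rw [h1]
  have h2 := mult_mean m hp one_bd
  rw [m.one] at h2
  have hp0 : (p : ℝ) ≠ 0 := by positivity
  field_simp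
  linarith

lemma prod_bd {d : ℕ} {F : ℕ → ℝ} (hF : ∀ n, |F n| ≤ 1) (u : Fin d → ℕ) : |∏ l, F (u l)| ≤ 1 := by
  rw [abs_prod]
  exact prod_le_one (fun _ _ => abs_nonneg _) fun _ _ => hF _

theorem core (m : LM) (i D B c : ℕ) (δ : ℝ) (F : ℕ → ℝ) {A : Type} (a : ℕ → A) (hF1 : ∀ n, |F n| ≤ 1)
    (hFa : ∀ n n', a n = a n' → F n = F n') (hsq : ∀ p : ℕ, p.Prime → F p ^ 2 = 1)
    (hmul : ∀ p n : ℕ, p.Prime → 1 ≤ n → ¬ p ∣ n → F (p * n) = F p * F n)
    (hdec : ∀ g : ℕ → ℕ → ℝ, (∀ p n, |g p n| ≤ 1) →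
      (∀ p ∈ QD i (i + 1), ∀ n n', win (c * 2 ^ i) a n = win (c * 2 ^ i) a n' → g p n = g p n') →
      ∑ p ∈ QD i (i + 1), Real.log p / 2 ^ i *
        |m.m (g p) - p * m.m (fun n => if p ∣ n then g p n else 0)| ≤ 10 * δ)
    (hc : 4 * B < c) (d : ℕ) (hd : d ≤ D) (b : Fin (2 * d) → ℕ) (hb : ∀ l, b l ≤ 2 * B) :
    ∑ p ∈ QD i (i + 1), Real.log p / 2 ^ i *
      |m.m (fun n => ∏ l, F (n + p * b l)) - m.m (fun n => ∏ l, F (n + b l))| ≤
      10 * δ + 12 * D / 2 ^ i := by
  set g : ℕ → ℕ → ℝ := fun p n => ∏ l, F (n + p * b l) with hg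
  have hg1 : ∀ p n, |g p n| ≤ 1 := fun p n => prod_bd hF1 _
  have hgb : ∀ p, Bd (g p) := fun p => ⟨1, hg1 p⟩
  have hG : Bd (fun n => ∏ l, F (n + b l)) := ⟨1, fun n => prod_bd hF1 _⟩
  have h1 := hdec g hg1 (by
    intro p hp n n' hw
    simp only [hg]
    apply prod_congr rfl
    intro l _
    apply hFa
    have hp2 : p ≤ 2 ^ (i + 1) := (mem_Ioc.1 (mem_filter.1 hp).1).2
    have hlt : p * b l < c * 2 ^ i := by
      calc p * b l ≤ 2 ^ (i + 1) * (2 * B) := Nat.mul_le_mul hp2 (hb l)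
        _ = 4 * B * 2 ^ i := by ring
        _ < c * 2 ^ i := Nat.mul_lt_mul_of_pos_right hc (by positivity)
    exact congr_fun hw ⟨p * b l, hlt⟩)
  -- the comparison with the undilated product
  have h2 : ∀ p ∈ QD i (i + 1), |p * m.m (fun n => if p ∣ n then g p n else 0) -
      m.m (fun n => ∏ l, F (n + b l))| ≤ 4 * D / 2 ^ i := by
    intro p hp
    have hpp : p.Prime := (mem_filter.1 hp).2
    have hp1 : 2 ^ i < p := (mem_Ioc.1 (mem_filter.1 hp).1).1
    have hpr : (2 : ℝ) ^ i < p := by exact_mod_cast hp1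
    have hpos : (0 : ℝ) < p := by exact_mod_cast hpp.pos
    rw [mult_mean m hpp.one_lt.le (hgb p)]
    have hgpb : Bd (fun n => g p (p * n)) := (hgb p).comp _
    rw [← m.sub hgpb hG]
    have hdb : Bd (fun n => g p (p * n) - ∏ l, F (n + b l)) := by
      refine ⟨2, fun n => (abs_sub _ _).trans ?_⟩
      linarith [hg1 p (p * n), prod_bd hF1 (fun l => n + b l)]
    have hE : Bd (fun n => ∑ l : Fin (2 * d), 2 * (if p ∣ n + b l then (1 : ℝ) else 0)) :=
      Pool.Agent.TH112.BL.Bd.sum _ fun l _ => Pool.Agent.TH112.BL.Bd.cmul 2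
        ((one_bd.ite (fun n => p ∣ n)).comp (fun n => n + b l))
    refine (m.abs_le hdb).trans ?_
    have h3 : m.m (fun n => |g p (p * n) - ∏ l, F (n + b l)|) ≤
        m.m (fun n => ∑ l : Fin (2 * d), 2 * (if p ∣ n + b l then (1 : ℝ) else 0)) := by
      apply Pool.Agent.Y956.CB.lm_mono_large m hdb.abs hE 1
      intro n hn
      by_cases hall : ∀ l, ¬ p ∣ n + b l
      · have e : g p (p * n) = ∏ l, F (n + b l) := by
          simp only [hg]
          have e1 : ∀ l, F (p * n + p * b l) = F p * F (n + b l) := by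
            intro l
            rw [← mul_add]
            exact hmul p _ hpp (by omega) (hall l)
          simp only [e1]
          rw [prod_mul_distrib, prod_const, card_univ, Fintype.card_fin, pow_mul, hsq p hpp, one_pow,
            one_mul]
        rw [e, sub_self, abs_zero]
        exact sum_nonneg fun l _ => by split_ifs <;> norm_num
      · push Not at hall
        obtain ⟨l, hl⟩ := hall
        have e2 : (2 : ℝ) ≤ ∑ l : Fin (2 * d), 2 * (if p ∣ n + b l then (1 : ℝ) else 0) := by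
          have := single_le_sum (f := fun l : Fin (2 * d) => 2 * (if p ∣ n + b l then (1 : ℝ) else 0))
            (fun l _ => by split_ifs <;> norm_num) (mem_univ l)
          simp only [hl, if_true, mul_one] at this
          exact this
        refine (abs_sub _ _).trans ?_
        linarith [hg1 p (p * n), prod_bd hF1 (fun l => n + b l)]
    refine h3.trans ?_
    rw [m.sum _ (fun l _ => Pool.Agent.TH112.BL.Bd.cmul 2
        ((one_bd.ite (fun n => p ∣ n)).comp (fun n => n + b l)))]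
    have h4 : ∀ l : Fin (2 * d), m.m (fun n => 2 * (if p ∣ n + b l then (1 : ℝ) else 0)) = 2 * (1 / p) := by
      intro l
      rw [m.smul 2 (fun n => if p ∣ n + b l then (1 : ℝ) else 0)
        ((one_bd.ite (fun n => p ∣ n)).comp (fun n => n + b l)), ind_mean m hpp.one_lt.le]
    rw [sum_congr rfl fun l _ => h4 l, sum_const, card_univ, Fintype.card_fin, nsmul_eq_mul]
    push_cast
    have hdD : (d : ℝ) ≤ D := by exact_mod_cast hd
    have h5 : 1 / (p : ℝ) ≤ 1 / 2 ^ i := one_div_le_one_div_of_le (by positivity) hpr.le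
    calc 2 * (d : ℝ) * (2 * (1 / p)) = 4 * d * (1 / p) := by ring
      _ ≤ 4 * D * (1 / 2 ^ i) := by
          apply mul_le_mul (by linarith) h5 (by positivity) (by positivity)
      _ = 4 * D / 2 ^ i := by ring
  have h3 : ∀ p ∈ QD i (i + 1), Real.log p / 2 ^ i *
      |m.m (fun n => ∏ l, F (n + p * b l)) - m.m (fun n => ∏ l, F (n + b l))| ≤
      Real.log p / 2 ^ i * |m.m (g p) - p * m.m (fun n => if p ∣ n then g p n else 0)| +
        Real.log p / 2 ^ i * (4 * D / 2 ^ i) := by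
    intro p hp
    rw [← mul_add]
    apply mul_le_mul_of_nonneg_left _ (QDw_nonneg i p hp)
    exact (abs_sub_le _ _ _).trans (add_le_add le_rfl (h2 p hp))
  refine (sum_le_sum h3).trans ?_
  rw [sum_add_distrib, ← sum_mul]
  refine add_le_add h1 ?_
  calc (∑ p ∈ QD i (i + 1), Real.log p / 2 ^ i) * (4 * D / 2 ^ i) ≤ 3 * (4 * D / 2 ^ i) :=
        mul_le_mul_of_nonneg_right (QDw_le i) (by positivity)
    _ = 12 * D / 2 ^ i := by ring

end Pool.Agent.K9h60.TA
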